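import Pool.Agent.Helper84.ST.E

/-!
Cells, the quarter of the critical line and zero freeness, star shaped regions.
-/

set_option autoImplicit false
noncomputable section
namespace Pool.Agent.Helper84.ST

open Complex
open Pool.Agent.Helper6.MONO
open Pool.Agent.Helper6.MONO.QTR
open Pool.Agent.Helper21.SUP (GS DG SSt Ty std Modes srl mmOK_rot mmOK_02)
open Pool.Agent.Helper21.MIRI
open Pool.Agent.Helper39.SLT (T4)

theorem pcertS_mono {V : RV2} {e : ℝ} {p q r : ℕ} {Y : Modes} {live : SSt Ty → Prop} {C C' : ℝ}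
    {w : ℂ} {R : SSt Ty → Set V3} (h : C ≤ C') (hR : PCertS V e p q r Y live C w R) :
    PCertS V e p q r Y live C' w R :=
  ⟨hR.reg, hR.blk, hR.dead, hR.ref, hR.start, hR.slitA, hR.slitP, hR.slitQ, hR.slitB,
    fun σ v j hv => (hR.bound σ v j hv).trans (mul_le_mul_of_nonneg_right h (norm_nonneg _))⟩

/-- certificates on the cell `a ≤ y ≤ b` -/
def CellXS (V : RV2) (e : ℝ) (p q r : ℕ) (Y : Modes) (live : SSt Ty → Prop) (x0 a b : ℝ) : Prop :=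
  ∃ C : ℝ, ∀ w, Qt x0 w → a ≤ (xw w).im → (xw w).im ≤ b → ∃ R, PCertS V e p q r Y live C w R

/-- certificates near `w = 1` -/
def FarXS (V : RV2) (e : ℝ) (p q r : ℕ) (Y : Modes) (live : SSt Ty → Prop) (x0 b : ℝ) : Prop :=
  ∃ C : ℝ, ∀ w ∈ Frt x0, 0 ≤ w.im → 0 ≤ w.re → (w = 1 ∨ b ≤ (xw w).im) →
    ∃ R, GCertS V e p q r Y live C w R

theorem CellXS.join {V : RV2} {e : ℝ} {p q r : ℕ} {Y : Modes} {live : SSt Ty → Prop}
    {x0 a b c : ℝ} (h1 : CellXS V e p q r Y live x0 a b) (h2 : CellXS V e p q r Y live x0 b c) :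
    CellXS V e p q r Y live x0 a c := by
  obtain ⟨C1, h1⟩ := h1
  obtain ⟨C2, h2⟩ := h2
  refine ⟨max C1 C2, fun w hw ha hc => ?_⟩
  rcases le_total (xw w).im b with h | h
  · obtain ⟨R, hR⟩ := h1 w hw ha h
    exact ⟨R, pcertS_mono (le_max_left _ _) hR⟩
  · obtain ⟨R, hR⟩ := h2 w hw h hc
    exact ⟨R, pcertS_mono (le_max_right _ _) hR⟩

/-- smaller cells -/
theorem CellXS.sub {V : RV2} {e : ℝ} {p q r : ℕ} {Y : Modes} {live : SSt Ty → Prop}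
    {x0 a b a' b' : ℝ} (h1 : CellXS V e p q r Y live x0 a b) (ha : a ≤ a') (hb : b' ≤ b) :
    CellXS V e p q r Y live x0 a' b' := by
  obtain ⟨C1, h1⟩ := h1
  exact ⟨C1, fun w hw h h' => h1 w hw (ha.trans h) (h'.trans hb)⟩

/-- from cells to the hypotheses of the class theorem -/
theorem parts_of_cellsS {V : RV2} {e : ℝ} {p q r : ℕ} {Y : Modes} {live : SSt Ty → Prop}
    {x0 b : ℝ} (hx : -2 < x0) (hx2 : x0 ≤ 2) (hb : 0 ≤ b)
    (h1 : CellXS V e p q r Y live x0 0 b) (h2 : FarXS V e p q r Y live x0 b) :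
    ∃ C₁ C₂ : ℝ, ∀ C₁' C₂' : ℝ, C₁ ≤ C₁' → C₂ ≤ C₂' → ∀ w ∈ Frt x0, 0 ≤ w.im → 0 ≤ w.re →
      (2 / (4 + b) ≤ ‖1 - w‖ ∧ ∃ R, PCertS V e p q r Y live C₁' w R) ∨
        ∃ R, GCertS V e p q r Y live C₂' w R := by
  obtain ⟨C1, h1⟩ := h1
  obtain ⟨C2, h2⟩ := h2
  refine ⟨C1, C2, fun C1' C2' e1 e2 w hw hi hr => ?_⟩
  by_cases hw1 : w = 1
  · obtain ⟨R, hR⟩ := h2 w hw hi hr (Or.inl hw1)
    exact Or.inr ⟨R, hR.reg, hR.blk, hR.dead, hR.ref, hR.start, hR.slitA, hR.slitP, hR.slitQ,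
      hR.slitB, fun σ v j hv => (hR.bound σ v j hv).trans
        (mul_le_mul_of_nonneg_right e2 (norm_nonneg _))⟩
  · have hq : Qt x0 w := ⟨hw, hi, hr, hw1⟩
    rcases le_total (xw w).im b with h | h
    · obtain ⟨R, hR⟩ := h1 w hq (hq.z hx hx2).im h
      refine Or.inl ⟨?_, R, pcertS_mono e1 hR⟩
      rw [div_le_iff₀ (by linarith)]
      have := (hq.z hx hx2).d
      nlinarith [norm_nonneg (1 - w)]
    · obtain ⟨R, hR⟩ := h2 w hw hi hr (Or.inr h)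
      exact Or.inr ⟨R, hR.reg, hR.blk, hR.dead, hR.ref, hR.start, hR.slitA, hR.slitP, hR.slitQ,
        hR.slitB, fun σ v j hv => (hR.bound σ v j hv).trans
          (mul_le_mul_of_nonneg_right e2 (norm_nonneg _))⟩

/-- typed certificates on the cell `a ≤ y ≤ b` -/
def TCellS (p q r : ℕ) (x0 a b : ℝ) : Prop :=
  ∃ C : ℝ, ∀ w, Qt x0 w → a ≤ (xw w).im → (xw w).im ≤ b →
    ∃ R : GS → T4 → Set V3, TCertS V0 e0 p q r C w R

/-- certificates near `w = 1` -/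
def FarS (p q r : ℕ) (x0 b : ℝ) : Prop := FarXS V0 e0 p q r Y0 (liveT p q r) x0 b

theorem farS_of {p q r : ℕ} {x0 b : ℝ} (h : Far p q r x0 b) : FarS p q r x0 b := by
  obtain ⟨C, h⟩ := h
  refine ⟨C, fun w hw hi hr hb => ?_⟩
  obtain ⟨R, hR⟩ := h w hw hi hr hb
  exact ⟨R, gcertS_of hR⟩

theorem tcertS_mono {V : RV2} {e : ℝ} {p q r : ℕ} {C C' : ℝ} {w : ℂ} {R : GS → T4 → Set V3}
    (h : C ≤ C') (hR : TCertS V e p q r C w R) : TCertS V e p q r C' w R :=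
  ⟨hR.reg, hR.blk, hR.refY, hR.refL, hR.ref4, hR.start, hR.slit3, hR.slit2,
    fun s hs T hT u hu j => (hR.bound s hs T hT u hu j).trans
      (mul_le_mul_of_nonneg_right h (norm_nonneg _))⟩

theorem TCellS.join {p q r : ℕ} {x0 a b c : ℝ} (h1 : TCellS p q r x0 a b)
    (h2 : TCellS p q r x0 b c) : TCellS p q r x0 a c := by
  obtain ⟨C1, h1⟩ := h1
  obtain ⟨C2, h2⟩ := h2
  refine ⟨max C1 C2, fun w hw ha hc => ?_⟩
  rcases le_total (xw w).im b with h | h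
  · obtain ⟨R, hR⟩ := h1 w hw ha h
    exact ⟨R, tcertS_mono (le_max_left _ _) hR⟩
  · obtain ⟨R, hR⟩ := h2 w hw h hc
    exact ⟨R, tcertS_mono (le_max_right _ _) hR⟩


/-- old cells are new cells -/
theorem tcellS_of {p q r : ℕ} {x0 a b : ℝ} (h : TCell p q r x0 a b) : TCellS p q r x0 a b := by
  obtain ⟨C, h⟩ := h
  refine ⟨C, fun w hw ha hb => ?_⟩
  obtain ⟨R, hR⟩ := h w hw ha hb
  exact ⟨R, tcertS_of hR⟩

theorem TCellS.chain {p q r : ℕ} {x0 : ℝ} : ∀ (l : List ℝ) (a b : ℝ),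
    Chn (TCellS p q r x0) a (b :: l) → TCellS p q r x0 a ((b :: l).getLast (List.cons_ne_nil _ _)) := by
  intro l
  induction l with
  | nil =>
    intro a b h
    exact h.1
  | cons c l ih =>
    intro a b h
    have h1 := ih b c h.2
    rw [List.getLast_cons (List.cons_ne_nil _ _)]
    exact h.1.join h1

theorem TCellS.cellXS {p q r : ℕ} (hp : 3 ≤ p) (hq : 3 ≤ q) (hr : 3 ≤ r) {x0 a b : ℝ}
    (h : TCellS p q r x0 a b) : CellXS V0 e0 p q r Y0 (liveT p q r) x0 a b := by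
  obtain ⟨C, h⟩ := h
  refine ⟨C, fun w hw ha hb => ?_⟩
  obtain ⟨R, hR⟩ := h w hw ha hb
  exact ⟨_, hR.pcertS hp hq hr⟩

/-- THE QUARTER of the critical line for the labelling `p q r` -/
def QXS (p q r : ℕ) (x0 : ℝ) : Prop :=
  ∃ A : ℝ, ∀ C, A ≤ C → ∀ w ∈ Frt x0, 0 ≤ w.im → 0 ≤ w.re →
    ∃ R, GCertS V0 e0 p q r Y0 (liveT p q r) C w R

theorem qxS_of_cells {p q r : ℕ} (hp : 3 ≤ p) (hq : 3 ≤ q) (hr : 3 ≤ r) {x0 b : ℝ}
    (hx : -2 < x0) (hx2 : x0 ≤ 2) (hb : 0 ≤ b) (h1 : TCellS p q r x0 0 b) (h2 : FarS p q r x0 b) :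
    QXS p q r x0 := by
  obtain ⟨A1, A2, hA⟩ := parts_of_cellsS hx hx2 hb (h1.cellXS hp hq hr) h2
  exact gcert_of_partsS hp hq hr hx (by positivity : (0 : ℝ) < 2 / (4 + b)) A1 A2
    (hA _ _ le_rfl le_rfl)

/-- rotation of the labels -/
theorem QXS.rot {p q r : ℕ} {x0 : ℝ} (h : QXS r p q x0) : QXS p q r x0 := by
  obtain ⟨A, hA⟩ := h
  refine ⟨A, fun C hC w hw hi hr => ?_⟩
  obtain ⟨R, hR⟩ := hA C hC w hw hi hr
  exact ⟨_, hR.rl (rle_rot p q r w) (Y0_rel _) (liveT_rl (mmOK_rot p q r))⟩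

theorem QXS.rot2 {p q r : ℕ} {x0 : ℝ} (h : QXS q r p x0) : QXS p q r x0 := h.rot.rot


/-- old quarters are new quarters -/
theorem qxS_of {p q r : ℕ} {x0 : ℝ} (h : QX p q r x0) : QXS p q r x0 := by
  obtain ⟨A, hA⟩ := h
  refine ⟨A, fun C hC w hw hi hr => ?_⟩
  obtain ⟨R, hR⟩ := hA C hC w hw hi hr
  exact ⟨R, gcertS_of hR⟩

/-- NEAR CELLS with star shaped regions, middle cells with convex ones, far cell -/
theorem qxS_of_near {p q r : ℕ} (hp : 3 ≤ p) (hq : 3 ≤ q) (hr : 3 ≤ r) {x0 a b : ℝ}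
    (hx : -2 < x0) (hx2 : x0 ≤ 2) (hb : 0 ≤ b) (h1 : TCellS p q r x0 0 a)
    (h2 : TCell p q r x0 a b) (h3 : Far p q r x0 b) : QXS p q r x0 :=
  qxS_of_cells hp hq hr hx hx2 hb (h1.join (tcellS_of h2)) (farS_of h3)

/-- the cells in terms of `z` -/
theorem tcellS_of_z {p q r : ℕ} {x0 a b : ℝ} (hx : -2 < x0) (hx2 : x0 ≤ 2) (C : ℝ)
    (h : ∀ (z : ℂ) (y : ℝ), 0 ≤ y → a ≤ y → y ≤ b → z ≠ 0 → 1 ≤ ‖z‖ → 0 ≤ z.im → (z⁻¹).im ≤ 0 →
      z + z⁻¹ = (x0 : ℂ) + (y : ℂ) * Complex.I →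
        ∃ R : GS → T4 → Set V3, TCertS V0 e0 p q r C (zw z) R) :
    TCellS p q r x0 a b := by
  refine ⟨C, fun w hw ha hb => ?_⟩
  have hz := hw.z hx hx2
  have h1 : 1 - w ≠ 0 := fun h' => hw.ne (by linear_combination -h')
  have h2 := h (wz w) (xw w).im hz.im ha hb hz.z0 hz.one hz.zim hz.uim (by
    rw [hz.x_eq]
    apply Complex.ext
    · simp [hz.re]
    · simp)
  rwa [zw_wz h1] at h2

/-- ZERO FREENESS from the two quarters -/
theorem zf_of_qxS {p q r : ℕ} (hp : 3 ≤ p) (hpq : p ≤ q) (hqr : q ≤ r)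
    (hne : ¬ (p = 3 ∧ q = 3 ∧ r = 3)) {x0 : ℝ} (hx : -2 < x0) (hA : xA p q r ≤ x0)
    (h1 : QXS p q r x0) (h2 : QXS q p r x0) : ZF p q r x0 := by
  have hq : 3 ≤ q := hp.trans hpq
  have hr : 3 ≤ r := hq.trans hqr
  obtain ⟨A, hA'⟩ := h1
  obtain ⟨B, hB'⟩ := h2
  exact zf_of_quarterS hp hq hr hne hx (by norm_num [e0]) (clo_V0 hp hpq hqr hx hA) (Y0_rel _)
    (liveT_rl (mmOK_02 p q r)) (max A B) (hA' _ (le_max_left _ _)) (hB' _ (le_max_right _ _))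

end Pool.Agent.Helper84.ST
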