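import Pool.Agent.Helper39.C75.LineC

/-!
The induction over words with regions which are only star shaped about the reference vectors
(for instance unions of cones which all contain the reference vector).
-/

set_option autoImplicit false
noncomputable section
namespace Pool.Agent.Helper84.ST

open Set Filter Topology Complex
open Pool.Agent.Helper39.C75 (IsRegion Reg Chain lemmaA RCert RTreat)

/-- admissible regions: invariant under nonzero scalars, away from `v 0 = 0` -/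
structure IsCn (R : Set (Fin 3 → ℂ)) : Prop where
  ne0 : ∀ v ∈ R, v 0 ≠ 0
  smul : ∀ (c : ℂ) (v : Fin 3 → ℂ), c ≠ 0 → v ∈ R → c • v ∈ R

/-- `R` is star shaped about `r` in the chart `v 0 = 1` -/
def Star (R : Set (Fin 3 → ℂ)) (r : Fin 3 → ℂ) : Prop :=
  r ∈ R ∧ ∀ v ∈ R, ∀ s : ℝ, 0 ≤ s → (v 0)⁻¹ • v + (s : ℂ) • ((r 0)⁻¹ • r) ∈ R

theorem cn_of_region {R : Set (Fin 3 → ℂ)} (h : IsRegion R) : IsCn R := ⟨h.ne0, h.smul⟩

/-- a convex region is star shaped about each of its elements -/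
theorem star_of_region {R : Set (Fin 3 → ℂ)} (h : IsRegion R) {r : Fin 3 → ℂ} (hr : r ∈ R) :
    Star R r := by
  refine ⟨hr, fun v hv s hs => ?_⟩
  have hv0 := h.ne0 v hv
  have hr0 := h.ne0 r hr
  refine h.comb s _ _ hs (h.smul _ _ (inv_ne_zero hv0) hv) (h.smul _ _ (inv_ne_zero hr0) hr) ?_ ?_
  · rw [Pi.smul_apply, smul_eq_mul, inv_mul_cancel₀ hv0]
  · rw [Pi.smul_apply, smul_eq_mul, inv_mul_cancel₀ hr0]

theorem cn_union {R R' : Set (Fin 3 → ℂ)} (h : IsCn R) (h' : IsCn R') : IsCn (R ∪ R') :=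
  ⟨fun v hv => hv.elim (h.ne0 v) (h'.ne0 v), fun c v hc hv => hv.elim
    (fun h1 => Or.inl (h.smul c v hc h1)) fun h1 => Or.inr (h'.smul c v hc h1)⟩

theorem cn_inter {R R' : Set (Fin 3 → ℂ)} (h : IsCn R) (h' : IsCn R') : IsCn (R ∩ R') :=
  ⟨fun v hv => h.ne0 v hv.1, fun c v hc hv => ⟨h.smul c v hc hv.1, h'.smul c v hc hv.2⟩⟩

theorem cn_iUnion {ι : Type*} {R : ι → Set (Fin 3 → ℂ)} (h : ∀ i, IsCn (R i)) :
    IsCn (⋃ i, R i) := by
  refine ⟨fun v hv => ?_, fun c v hc hv => ?_⟩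
  · obtain ⟨i, hi⟩ := mem_iUnion.1 hv
    exact (h i).ne0 v hi
  · obtain ⟨i, hi⟩ := mem_iUnion.1 hv
    exact mem_iUnion.2 ⟨i, (h i).smul c v hc hi⟩

theorem star_union {R R' : Set (Fin 3 → ℂ)} {r : Fin 3 → ℂ} (h : Star R r) (h' : Star R' r) :
    Star (R ∪ R') r :=
  ⟨Or.inl h.1, fun v hv s hs => hv.elim (fun h1 => Or.inl (h.2 v h1 s hs))
    fun h1 => Or.inr (h'.2 v h1 s hs)⟩

theorem star_inter {R R' : Set (Fin 3 → ℂ)} {r : Fin 3 → ℂ} (h : Star R r) (h' : Star R' r) :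
    Star (R ∩ R') r :=
  ⟨⟨h.1, h'.1⟩, fun v hv s hs => ⟨h.2 v hv.1 s hs, h'.2 v hv.2 s hs⟩⟩

/-- LEMMA B for star shaped regions. -/
theorem lemmaBS {R : Set (Fin 3 → ℂ)} (hR : IsCn R) {r : Fin 3 → ℂ} (hr : Star R r)
    (D : (Fin 3 → ℂ) →ₗ[ℂ] ℂ) (hD : ∀ v ∈ R, D v ≠ 0) {v : Fin 3 → ℂ} (hv : v ∈ R) :
    D v * r 0 / (D r * v 0) ∈ slitPlane := by
  have hv0 : v 0 ≠ 0 := hR.ne0 v hv
  have hr0 : r 0 ≠ 0 := hR.ne0 r hr.1
  have hDr : D r ≠ 0 := hD r hr.1
  by_contra hcon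
  rw [mem_slitPlane_iff] at hcon
  push Not at hcon
  set y := D v * r 0 / (D r * v 0) with hy
  have hyr : y = ((y.re : ℝ) : ℂ) := by
    apply Complex.ext <;> simp [hcon.2]
  obtain ⟨s, hs, hsy⟩ : ∃ s : ℝ, 0 ≤ s ∧ y = -(s : ℂ) := ⟨-y.re, by linarith [hcon.1], by
    rw [hyr]; simp⟩
  have hmem := hr.2 v hv s hs
  apply hD _ hmem
  have h1 : D v * r 0 = -(s : ℂ) * (D r * v 0) := by
    rw [← hsy, hy, div_mul_cancel₀]
    exact mul_ne_zero hDr hv0
  have h2 : (v 0)⁻¹ * D v = -(s : ℂ) * ((r 0)⁻¹ * D r) := by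
    field_simp
    linear_combination h1
  simp only [map_add, map_smul, smul_eq_mul]
  rw [h2]
  ring

/-- A certificate at one point `w` of the frontier: regions. -/
structure SCert {S B : Type*} (src tgt : B → S) (M : B → ℂ → Matrix (Fin 3) (Fin 3) ℂ)
    (Start : S → (ℂ → Fin 3 → ℂ) → Prop) (w : ℂ) (R : S → Set (Fin 3 → ℂ)) : Prop where
  reg : ∀ s, IsCn (R s)
  block : ∀ b v, v ∈ R (src b) → (M b w).mulVec v ∈ R (tgt b)
  start : ∀ s v, Start s v → v w ∈ R s

/-- The three ways to treat a block. -/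
inductive STreat {S B : Type*} (src tgt : B → S) (M : B → ℂ → Matrix (Fin 3) (Fin 3) ℂ)
    (Start : S → (ℂ → Fin 3 → ℂ) → Prop) (Ω : Set ℂ) (rk : B → ℕ) (b : B) : Prop
  | ref (r : ℂ → Fin 3 → ℂ) (hr : Reg Ω r) (h0 : ∀ w ∈ closure Ω, r w 0 ≠ 0)
      (hb : ∀ w ∈ closure Ω, (M b w).mulVec (r w) 0 ≠ 0)
      (hH : ∀ w ∈ frontier Ω, ∃ R, SCert src tgt M Start w R ∧ Star (R (src b)) (r w))
  | self (g : ℂ → ℂ) (hgc : ContinuousOn g (closure Ω)) (hgd : DifferentiableOn ℂ g Ω)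
      (hg0 : ∀ w ∈ closure Ω, g w ≠ 0)
      (h : ∀ w ∈ frontier Ω, ∃ R, SCert src tgt M Start w R ∧
        ∀ v ∈ R (src b), (M b w).mulVec v 0 / (g w * v 0) ∈ slitPlane)
  | comp (b' : B) (hs : src b' = src b) (hlt : rk b' < rk b)
      (g : ℂ → ℂ) (hgc : ContinuousOn g (closure Ω)) (hgd : DifferentiableOn ℂ g Ω)
      (hg0 : ∀ w ∈ closure Ω, g w ≠ 0)
      (h : ∀ w ∈ frontier Ω, ∃ R, SCert src tgt M Start w R ∧
        ∀ v ∈ R (src b), (M b w).mulVec v 0 / (g w * (M b' w).mulVec v 0) ∈ slitPlane)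

theorem chain_keyS {S B : Type*} (src tgt : B → S)
    (M : B → ℂ → Matrix (Fin 3) (Fin 3) ℂ) (Start : S → (ℂ → Fin 3 → ℂ) → Prop)
    {Ω : Set ℂ} (hΩ : IsOpen Ω) (hb : Bornology.IsBounded Ω)
    (hM : ∀ b i j, ContinuousOn (fun w => M b w i j) (closure Ω) ∧
      DifferentiableOn ℂ (fun w => M b w i j) Ω)
    (hstart : ∀ s v, Start s v → Reg Ω v ∧ ∀ w ∈ closure Ω, v w 0 ≠ 0)
    (rk : B → ℕ) (htreat : ∀ b, STreat src tgt M Start Ω rk b) :
    ∀ s v, Chain src tgt M Start s v → Reg Ω v ∧ (∀ w ∈ closure Ω, v w 0 ≠ 0) ∧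
      (∀ w ∈ frontier Ω, ∀ R : S → Set (Fin 3 → ℂ), SCert src tgt M Start w R → v w ∈ R s) := by
  intro s v hc
  induction hc with
  | start h => exact ⟨(hstart _ _ h).1, (hstart _ _ h).2, fun w _ R hR => hR.start _ _ h⟩
  | @step v b _ ih =>
    obtain ⟨hreg, hzf, hpos⟩ := ih
    refine ⟨hreg.mulVec (hM b), ?_, fun w hw R hR => hR.block b _ (hpos w hw R hR)⟩
    have main : ∀ n : ℕ, ∀ b' : B, src b' = src b → rk b' = n →
        ∀ w ∈ closure Ω, (M b' w).mulVec (v w) 0 ≠ 0 := by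
      intro n
      induction n using Nat.strong_induction_on with
      | _ n IH =>
        intro b₁ hs₁ hn
        have hreg' : Reg Ω (fun w => (M b₁ w).mulVec (v w)) := hreg.mulVec (hM b₁)
        have hpos₁ : ∀ w ∈ frontier Ω, ∀ R : S → Set (Fin 3 → ℂ),
            SCert src tgt M Start w R → v w ∈ R (src b₁) := by
          intro w hw R hR
          rw [hs₁]
          exact hpos w hw R hR
        rcases htreat b₁ with ⟨r, hr, h0, hbr, hH⟩ | ⟨g, hgc, hgd, hg0, h⟩ |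
          ⟨b', hs, hlt, g, hgc, hgd, hg0, h⟩
        · have hregr : Reg Ω (fun w => (M b₁ w).mulVec (r w)) := hr.mulVec (hM b₁)
          have hslit := lemmaA hΩ hb
            (q := fun w => (M b₁ w).mulVec (v w) 0 * r w 0 /
              ((M b₁ w).mulVec (r w) 0 * v w 0))
            ((hreg' 0).1.mul (hr 0).1 |>.div ((hregr 0).1.mul (hreg 0).1)
              fun w hw => mul_ne_zero (hbr w hw) (hzf w hw))
            ((hreg' 0).2.mul (hr 0).2 |>.div ((hregr 0).2.mul (hreg 0).2)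
              fun w hw => mul_ne_zero (hbr w (subset_closure hw)) (hzf w (subset_closure hw)))
            (by
              intro w hw
              obtain ⟨R, hC, hHr⟩ := hH w hw
              exact lemmaBS (hC.reg (src b₁)) hHr
                ((LinearMap.proj 0).comp (Matrix.mulVecLin (M b₁ w)))
                (fun v hv => (hC.reg (tgt b₁)).ne0 _ (hC.block b₁ v hv))
                (hpos₁ w hw R hC))
          intro w hw hz
          apply slitPlane_ne_zero (hslit w hw)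
          show (M b₁ w).mulVec (v w) 0 * r w 0 / ((M b₁ w).mulVec (r w) 0 * v w 0) = 0
          rw [hz, zero_mul, zero_div]
        · have hslit := lemmaA hΩ hb
            (q := fun w => (M b₁ w).mulVec (v w) 0 / (g w * v w 0))
            ((hreg' 0).1.div (hgc.mul (hreg 0).1)
              fun w hw => mul_ne_zero (hg0 w hw) (hzf w hw))
            ((hreg' 0).2.div (hgd.mul (hreg 0).2)
              fun w hw => mul_ne_zero (hg0 w (subset_closure hw)) (hzf w (subset_closure hw)))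
            (by
              intro w hw
              obtain ⟨R, hC, hv⟩ := h w hw
              exact hv _ (hpos₁ w hw R hC))
          intro w hw hz
          apply slitPlane_ne_zero (hslit w hw)
          show (M b₁ w).mulVec (v w) 0 / (g w * v w 0) = 0
          rw [hz, zero_div]
        · have hprev := IH (rk b') (hn ▸ hlt) b' (hs.trans hs₁) rfl
          have hreg'' : Reg Ω (fun w => (M b' w).mulVec (v w)) := hreg.mulVec (hM b')
          have hslit := lemmaA hΩ hb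
            (q := fun w => (M b₁ w).mulVec (v w) 0 / (g w * (M b' w).mulVec (v w) 0))
            ((hreg' 0).1.div (hgc.mul (hreg'' 0).1)
              fun w hw => mul_ne_zero (hg0 w hw) (hprev w hw))
            ((hreg' 0).2.div (hgd.mul (hreg'' 0).2)
              fun w hw => mul_ne_zero (hg0 w (subset_closure hw)) (hprev w (subset_closure hw)))
            (by
              intro w hw
              obtain ⟨R, hC, hv⟩ := h w hw
              exact hv _ (hpos₁ w hw R hC))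
          intro w hw hz
          apply slitPlane_ne_zero (hslit w hw)
          show (M b₁ w).mulVec (v w) 0 / (g w * (M b' w).mulVec (v w) 0) = 0
          rw [hz, zero_div]
    exact main (rk b) b rfl rfl

/-- THE INDUCTION OVER WORDS: zero freeness. -/
theorem zeroFree_S {S B : Type*} (src tgt : B → S)
    (M : B → ℂ → Matrix (Fin 3) (Fin 3) ℂ) (Start : S → (ℂ → Fin 3 → ℂ) → Prop)
    {Ω : Set ℂ} (hΩ : IsOpen Ω) (hb : Bornology.IsBounded Ω)
    (hM : ∀ b i j, ContinuousOn (fun w => M b w i j) (closure Ω) ∧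
      DifferentiableOn ℂ (fun w => M b w i j) Ω)
    (hstart : ∀ s v, Start s v → Reg Ω v ∧ ∀ w ∈ closure Ω, v w 0 ≠ 0)
    (rk : B → ℕ) (htreat : ∀ b, STreat src tgt M Start Ω rk b) :
    ∀ s v, Chain src tgt M Start s v → ∀ w ∈ closure Ω, v w 0 ≠ 0 :=
  fun s v hc => (chain_keyS src tgt M Start hΩ hb hM hstart rk htreat s v hc).2.1

/-- THE BOUND: if the regions at the frontier are uniformly bounded in the chart, then so are all
chain vectors on the closure. -/
theorem bound_S {S B : Type*} (src tgt : B → S)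
    (M : B → ℂ → Matrix (Fin 3) (Fin 3) ℂ) (Start : S → (ℂ → Fin 3 → ℂ) → Prop)
    {Ω : Set ℂ} (hΩ : IsOpen Ω) (hb : Bornology.IsBounded Ω)
    (hM : ∀ b i j, ContinuousOn (fun w => M b w i j) (closure Ω) ∧
      DifferentiableOn ℂ (fun w => M b w i j) Ω)
    (hstart : ∀ s v, Start s v → Reg Ω v ∧ ∀ w ∈ closure Ω, v w 0 ≠ 0)
    (rk : B → ℕ) (htreat : ∀ b, STreat src tgt M Start Ω rk b) (s : S) (C : ℝ) (j : Fin 3)
    (hC : ∀ w ∈ frontier Ω, ∃ R, SCert src tgt M Start w R ∧ ∀ v ∈ R s, ‖v j‖ ≤ C * ‖v 0‖) :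
    ∀ v, Chain src tgt M Start s v → ∀ w ∈ closure Ω, ‖v w j‖ ≤ C * ‖v w 0‖ := by
  intro v hc w hw
  obtain ⟨hreg, hzf, hpos⟩ := chain_keyS src tgt M Start hΩ hb hM hstart rk htreat s v hc
  have hd : DiffContOnCl ℂ (fun w => v w j / v w 0) Ω :=
    ⟨(hreg j).2.div (hreg 0).2 fun w hw => hzf w (subset_closure hw),
      (hreg j).1.div (hreg 0).1 hzf⟩
  have h1 := Complex.norm_le_of_forall_mem_frontier_norm_le hb hd (C := C) (by
    intro w hw
    obtain ⟨R, hR, hv⟩ := hC w hw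
    have h2 := hv _ (hpos w hw R hR)
    have h3 : 0 < ‖v w 0‖ := norm_pos_iff.2 (hzf w hw.1)
    rw [norm_div, div_le_iff₀ h3]
    exact h2) hw
  have h3 : 0 < ‖v w 0‖ := norm_pos_iff.2 (hzf w hw)
  rw [norm_div, div_le_iff₀ h3] at h1
  exact h1

end Pool.Agent.Helper84.ST

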