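import Pool.Agent.Helper84.ST.A
import Pool.Agent.Helper12.CX.CLG

/-!
Certificates at the frontier points with star shaped regions, up to the class theorem in the
global charts.
-/

set_option autoImplicit false
noncomputable section
namespace Pool.Agent.Helper84.ST

open Complex Set Polynomial
open Pool.Agent.Helper39.C75 hiding chain_key zeroFree_of_regions bound_of_regions
open Pool.Agent.Helper21.MIR
open Pool.Agent.Helper6.MONO
open Pool.Agent.Helper6.MONO.SV hiding zfd_of_regions zfd_of_pt zf_class zf_global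
open Pool.Agent.Helper21.SUP (GS Sch gM fD SBlk SSt DG DG_nx Modes std Ty)

/-- condition of the treatment at the frontier point `w`, `R` the region of the source -/
def atS {B : Type} (M : B → ℂ → Mt) (w : ℂ) (b : B) (R : Set V) : TR B → Prop
  | TR.ref r => Star R (r w)
  | TR.self g => ∀ v ∈ R, (M b w).mulVec v 0 / (g w * v 0) ∈ slitPlane
  | TR.comp b' g => ∀ v ∈ R, (M b w).mulVec v 0 / (g w * (M b' w).mulVec v 0) ∈ slitPlane

theorem cn_conj {R : Set V} (h : IsCn R) : IsCn {v | cj v ∈ R} := by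
  refine ⟨fun v hv h0 => ?_, fun c v hc hv => ?_⟩
  · apply h.ne0 _ hv
    show starRingEnd ℂ (v 0) = 0
    rw [h0, map_zero]
  · show cj (c • v) ∈ R
    rw [cj_smul]
    exact h.smul _ _ (by rw [Ne, map_eq_zero]; exact hc) hv

theorem star_conj {R : Set V} {r : V} (h : Star R r) : Star {v | cj v ∈ R} (cj r) := by
  refine ⟨?_, fun v hv s hs => ?_⟩
  · show cj (cj r) ∈ R
    rw [cj_cj]
    exact h.1
  · have h1 := h.2 _ hv s hs
    show cj ((v 0)⁻¹ • v + (s : ℂ) • ((cj r 0)⁻¹ • cj r)) ∈ R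
    rw [cj_add, cj_smul, cj_smul, cj_smul, cj_cj, Complex.conj_ofReal, map_inv₀, map_inv₀]
    have e1 : starRingEnd ℂ (cj r 0) = r 0 := by
      show starRingEnd ℂ (starRingEnd ℂ (r 0)) = r 0
      rw [Complex.conj_conj]
    rw [e1]
    exact h1

/-- the certificate at the point `w` with the regions `R` -/
structure PSr {S B : Type} (src tgt : B → S) (M : B → ℂ → Mt) (Start : S → (ℂ → V) → Prop)
    (K : B → TR B) (C : ℝ) (w : ℂ) (R : S → Set V) : Prop where
  cert : SCert src tgt M Start w R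
  tr : ∀ b, atS M w b (R (src b)) (K b)
  bound : ∀ s v j, v ∈ R s → ‖v j‖ ≤ C * ‖v 0‖

/-- the certificate at the point `w` -/
def PS {S B : Type} (src tgt : B → S) (M : B → ℂ → Mt) (Start : S → (ℂ → V) → Prop)
    (K : B → TR B) (C : ℝ) (w : ℂ) : Prop :=
  ∃ R, PSr src tgt M Start K C w R

/-- all frontier points together -/
theorem ps_all {S B : Type} {src tgt : B → S} {M : B → ℂ → Mt} {Start : S → (ℂ → V) → Prop}
    {K : B → TR B} {C : ℝ} {Ω : Set ℂ} (hΩ : IsOpen Ω) {rk : B → ℕ}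
    (hK : ∀ b, (K b).ok src M Ω rk b)
    (h : ∀ w ∈ frontier Ω, PS src tgt M Start K C w) :
    (∀ b, STreat src tgt M Start Ω rk b) ∧
    ∀ s j, ∀ w ∈ frontier Ω, ∃ R, SCert src tgt M Start w R ∧ ∀ v ∈ R s, ‖v j‖ ≤ C * ‖v 0‖ := by
  constructor
  · intro b
    have hb := hK b
    have hf : ∀ w ∈ frontier Ω, ∃ R, SCert src tgt M Start w R ∧ atS M w b (R (src b)) (K b) := by
      intro w hw
      obtain ⟨R, hR⟩ := h w hw
      exact ⟨R, hR.cert, hR.tr b⟩
    revert hb hf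
    cases K b with
    | ref r =>
      intro hb hf
      have hcl : ∀ w ∈ closure Ω, w ∈ Ω ∨ w ∈ frontier Ω := by
        intro w hw
        by_cases h1 : w ∈ Ω
        · exact Or.inl h1
        · exact Or.inr ⟨hw, by rwa [hΩ.interior_eq]⟩
      refine STreat.ref r hb.1 ?_ ?_ fun w hw => hf w hw
      · intro w hw
        rcases hcl w hw with h1 | h1
        · exact hb.2.1 w h1
        · obtain ⟨R, hR, hr⟩ := hf w h1
          exact (hR.reg _).ne0 _ hr.1
      · intro w hw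
        rcases hcl w hw with h1 | h1
        · exact hb.2.2 w h1
        · obtain ⟨R, hR, hr⟩ := hf w h1
          exact (hR.reg _).ne0 _ (hR.block b _ hr.1)
    | self g =>
      intro hb hf
      exact STreat.self g hb.1 hb.2.1 hb.2.2 fun w hw => hf w hw
    | comp b' g =>
      intro hb hf
      exact STreat.comp b' hb.1.1 hb.1.2 g hb.2.1 hb.2.2.1 hb.2.2.2 fun w hw => hf w hw
  · intro s j w hw
    obtain ⟨R, hR⟩ := h w hw
    exact ⟨R, hR.cert, fun v hv => hR.bound s v j hv⟩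

/-! ### complex conjugation -/

/-- CONJUGATION -/
theorem ps_conj {S B : Type} {src tgt : B → S} {M : B → ℂ → Mt} {Start : S → (ℂ → V) → Prop}
    {K : B → TR B} {C : ℝ} {w w' : ℂ}
    (hM : ∀ b i j, M b w' i j = starRingEnd ℂ (M b w i j))
    (hK : ∀ b, (K b).conjOK w w')
    (hS : ∀ s v, Start s v → v w' = cj (v w))
    (h : PS src tgt M Start K C w) : PS src tgt M Start K C w' := by
  obtain ⟨R, hR⟩ := h
  have hmv : ∀ b v, (M b w').mulVec v = cj ((M b w).mulVec (cj v)) := fun b v =>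
    cj_mulVec _ _ (hM b) v
  have e1 : ∀ b v, starRingEnd ℂ ((M b w).mulVec (cj v) 0) = (M b w').mulVec v 0 := by
    intro b v
    rw [hmv]; rfl
  refine ⟨fun s => {v | cj v ∈ R s}, ⟨fun s => cn_conj (hR.cert.reg s), ?_, ?_⟩, ?_, ?_⟩
  · intro b v hv
    show cj _ ∈ R (tgt b)
    rw [hmv, cj_cj]
    exact hR.cert.block b _ hv
  · intro s v hv
    show cj _ ∈ R s
    rw [hS s v hv, cj_cj]
    exact hR.cert.start s v hv
  · intro b
    have h1 := hR.tr b
    have h2 := hK b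
    revert h1 h2
    cases K b with
    | ref r =>
      intro h1 h2
      show Star {v | cj v ∈ R (src b)} (r w')
      have h2' : r w' = cj (r w) := h2
      rw [h2']
      exact star_conj h1
    | self g =>
      intro h1 h2 v hv
      have h2' : g w' = starRingEnd ℂ (g w) := h2
      have h3 := slit_conj (h1 (cj v) hv)
      rw [map_div₀, map_mul, ← h2', e1] at h3
      have e2 : starRingEnd ℂ (cj v 0) = v 0 := by
        show starRingEnd ℂ (starRingEnd ℂ (v 0)) = v 0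
        rw [Complex.conj_conj]
      rw [e2] at h3
      exact h3
    | comp b' g =>
      intro h1 h2 v hv
      have h2' : g w' = starRingEnd ℂ (g w) := h2
      have h3 := slit_conj (h1 (cj v) hv)
      rw [map_div₀, map_mul, ← h2', e1, e1] at h3
      exact h3
  · intro s v j hv
    have h1 := hR.bound s (cj v) j hv
    have e : ∀ i, ‖cj v i‖ = ‖v i‖ := fun i => by
      show ‖starRingEnd ℂ (v i)‖ = ‖v i‖
      rw [Complex.norm_conj]
    rw [e, e] at h1
    exact h1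

theorem conjS {S B : Type} {src tgt : B → S} {M : B → ℂ → Mt} {Start : S → (ℂ → V) → Prop}
    {K : B → TR B} {C x0 : ℝ} (h : ConjOK M Start K x0) {w : ℂ} (hw : w ∈ Frt x0)
    (hp : PS src tgt M Start K C w) : PS src tgt M Start K C (starRingEnd ℂ w) :=
  ps_conj (fun b i j => h.mat b w hw i j) (fun b => h.tr b w hw) (fun s v hv => h.st s v hv w hw)
    hp

/-- both arcs: from the outer upper arc of the class and of the mirrored class -/
theorem ps_upper {S B : Type} {src tgt : B → S} {M : B → ℂ → Mt} {Start : S → (ℂ → V) → Prop}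
    {K : B → TR B} {C x0 : ℝ} (hc : ConjOK M Start K x0)
    (h1 : ∀ w ∈ Frt x0, 0 ≤ w.im → 0 ≤ w.re → PS src tgt M Start K C w)
    (h2 : ∀ w ∈ Frt x0, 0 ≤ w.im → 0 ≤ w.re → PS src tgt M Start K C (-w)) :
    ∀ w ∈ Frt x0, 0 ≤ w.im → PS src tgt M Start K C w := by
  intro w hw hi
  rcases le_total 0 w.re with hr | hr
  · exact h1 w hw hi hr
  · have hw2 : starRingEnd ℂ (-w) ∈ Frt x0 := frt_conj (frt_neg hw)
    have h0 := h2 (starRingEnd ℂ (-w)) hw2 (by
        rw [Complex.conj_im, Complex.neg_im, neg_neg]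
        exact hi) (by
        rw [Complex.conj_re, Complex.neg_re]
        linarith)
    have h3 := conjS hc (frt_neg hw2) h0
    rw [map_neg, Complex.conj_conj, neg_neg] at h3
    exact h3

/-- helper39's theorem with restricted start states -/
theorem zfd_of_regionsS {D : (Fin 3 × Fin 3 × Fin 3) → Prop} {p q r : ℕ} {x0 : ℝ} {S B : Type}
    {src tgt : B → S}
    {M : B → ℂ → Matrix (Fin 3) (Fin 3) ℂ} {T : S → ℂ → Matrix (Fin 3) (Fin 3) ℂ}
    {st : S → Fin 3 × Fin 3 × Fin 3} {runs : B → List ℕ}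
    (L : Link p q r x0 src tgt M T st runs) (Start : S → (ℂ → Fin 3 → ℂ) → Prop)
    {Ω : Set ℂ} (hΩ : IsOpen Ω) (hb : Bornology.IsBounded Ω)
    (hsub : ∀ z, InX x0 z → zw z ∈ Ω)
    (hM : ∀ b i j, ContinuousOn (fun w => M b w i j) (closure Ω) ∧
      DifferentiableOn ℂ (fun w => M b w i j) Ω)
    (hstart : ∀ s v, Start s v → Reg Ω v ∧ ∀ w ∈ closure Ω, v w 0 ≠ 0)
    (rk : B → ℕ) (htreat : ∀ b, STreat src tgt M Start Ω rk b)
    (C : ℝ) (hC : ∀ s j, ∀ w ∈ frontier Ω, ∃ R, SCert src tgt M Start w R ∧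
      ∀ v ∈ R s, ‖v j‖ ≤ C * ‖v 0‖)
    (s0 : (Fin 3 × Fin 3 × Fin 3) → S) (hs0 : ∀ t, st (s0 t) = t)
    (F : (Fin 3 × Fin 3 × Fin 3) → Fin 3 → Fin 3 → ℝ[X])
    (hLI : ∀ (n a b : Fin 3), Dist n a b → D (n, a, b) → ∀ z : ℂ, ‖z‖ = 1 → x0 ≤ 2 * z.re →
      LinearIndependent ℂ (fun i => evv (F (n, a, b) i) z))
    (hF : ∀ (n a b : Fin 3), Dist n a b → D (n, a, b) → ∀ i : Fin 3,
      ∃ v, Start (s0 (n, a, b)) v ∧ ∀ z, InX x0 z → ∃ f : ℂ, f ≠ 0 ∧
        v (zw z) = f • (T (s0 (n, a, b)) (zw z)).mulVec (evv (F (n, a, b) i) z))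
    (parse : ∀ (n a b : Fin 3), Dist n a b → D (n, a, b) → ∀ ms : List ℕ,
      okD p q r false (n, a, b) ms →
      ∃ (bs : List B) (s' : S), BPath src tgt (s0 (n, a, b)) bs s' ∧
        (bs.map runs).flatten = ms) : ZFD D p q r x0 := by
  obtain ⟨K, hK⟩ := L.bound
  refine ⟨F, |K| * (|C| + 1) * |K|, hLI, fun n a b hd hD ms hms i => ?_⟩
  obtain ⟨bs, s', hp, hbs⟩ := parse n a b hd hD ms hms
  obtain ⟨v, hv, hvz⟩ := hF n a b hd hD i
  obtain ⟨v', hv', hX'⟩ := cer_path_chain L Start hp v (fun z => evv (F (n, a, b) i) z)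
    (Chain.start hv) hvz
  have hst' : (sD (n, a, b) ms) = st s' := by
    rw [bpath_sD st runs L.hst hp, hs0, hbs]
  rw [hs0, hbs] at hX'
  have hzf := zeroFree_S src tgt M Start hΩ hb hM hstart rk
    htreat s' v' hv'
  refine ⟨fun z hz h0 => ?_, fun z hz1 hz2 => ?_⟩
  · obtain ⟨f, hf, hfv⟩ := hX' z hz
    obtain ⟨g, hg, hgT⟩ := L.first s' z hz
    apply hzf (zw z) (subset_closure (hsub z hz))
    rw [hfv, Pi.smul_apply, smul_eq_mul, hgT, ← hst', h0, mul_zero, mul_zero]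
  · have hz := inX_of_norm hz1 hz2
    obtain ⟨f, hf, hfv⟩ := hX' z hz
    set Y : V3 := gact (wG (cw p q r) z) (dw (n, a, b) ms) (evv (F (n, a, b) i) z) with hY
    obtain ⟨hK1, hK2⟩ := hK s' z hz1 hz2 Y
    have hbd : ∀ j, ‖v' (zw z) j‖ ≤ C * ‖v' (zw z) 0‖ := fun j =>
      bound_S src tgt M Start hΩ hb hM hstart rk htreat s' C j (hC s' j) v' hv' (zw z)
        (subset_closure (hsub z hz))
    have hfp : 0 < ‖f‖ := norm_pos_iff.2 hf
    have hTY : ‖(T s' (zw z)).mulVec Y‖ ≤ (|C| + 1) * ‖(T s' (zw z)).mulVec Y 0‖ := by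
      rw [pi_norm_le_iff_of_nonneg (by positivity)]
      intro j
      have h1 := hbd j
      rw [hfv, Pi.smul_apply, Pi.smul_apply, smul_eq_mul, smul_eq_mul, norm_mul, norm_mul] at h1
      have h2 : ‖f‖ * ‖(T s' (zw z)).mulVec Y j‖ ≤ ‖f‖ * (C * ‖(T s' (zw z)).mulVec Y 0‖) := by
        calc ‖f‖ * ‖(T s' (zw z)).mulVec Y j‖ ≤ C * (‖f‖ * ‖(T s' (zw z)).mulVec Y 0‖) := h1
          _ = ‖f‖ * (C * ‖(T s' (zw z)).mulVec Y 0‖) := by ring
      have h3 := le_of_mul_le_mul_left h2 hfp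
      refine h3.trans ?_
      have h4 : C ≤ |C| + 1 := by linarith [le_abs_self C]
      exact mul_le_mul_of_nonneg_right h4 (norm_nonneg _)
    rw [hst']
    have hK0 : K ≤ |K| := le_abs_self K
    calc ‖Y‖ ≤ K * ‖(T s' (zw z)).mulVec Y‖ := hK1
      _ ≤ |K| * ‖(T s' (zw z)).mulVec Y‖ := mul_le_mul_of_nonneg_right hK0 (norm_nonneg _)
      _ ≤ |K| * ((|C| + 1) * ‖(T s' (zw z)).mulVec Y 0‖) :=
        mul_le_mul_of_nonneg_left hTY (abs_nonneg _)
      _ ≤ |K| * ((|C| + 1) * (|K| * ‖Y (st s').2.2‖)) := by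
        refine mul_le_mul_of_nonneg_left (mul_le_mul_of_nonneg_left ?_ (by positivity))
          (abs_nonneg _)
        exact hK2.trans (mul_le_mul_of_nonneg_right hK0 (norm_nonneg _))
      _ = |K| * (|C| + 1) * |K| * ‖Y (st s').2.2‖ := by ring

/-- helper21's class theorem with restricted start states -/
theorem zfd_of_ptS {D : (Fin 3 × Fin 3 × Fin 3) → Prop} {p q r : ℕ} {x0 : ℝ} (hx : -2 < x0)
    {S B : Type} {src tgt : B → S} {M : B → ℂ → Mt} {T : S → ℂ → Mt}
    {st : S → Fin 3 × Fin 3 × Fin 3} {runs : B → List ℕ}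
    (L : Link p q r x0 src tgt M T st runs) (Start : S → (ℂ → V) → Prop)
    (hM : ∀ b i j, ContinuousOn (fun w => M b w i j) (closure (Omg x0)) ∧
      DifferentiableOn ℂ (fun w => M b w i j) (Omg x0))
    (hstart : ∀ s v, Start s v → Reg (Omg x0) v ∧ ∀ w ∈ closure (Omg x0), v w 0 ≠ 0)
    (K : B → TR B) (rk : B → ℕ) (hK : ∀ b, (K b).ok src M (Omg x0) rk b)
    (hc : ConjOK M Start K x0) (C : ℝ)
    (hpt : ∀ w ∈ Frt x0, 0 ≤ w.im → PS src tgt M Start K C w)
    (s0 : (Fin 3 × Fin 3 × Fin 3) → S) (hs0 : ∀ t, st (s0 t) = t)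
    (F : (Fin 3 × Fin 3 × Fin 3) → Fin 3 → Fin 3 → ℝ[X])
    (hLI : ∀ (n a b : Fin 3), Dist n a b → D (n, a, b) → ∀ z : ℂ, ‖z‖ = 1 → x0 ≤ 2 * z.re →
      LinearIndependent ℂ (fun i => evv (F (n, a, b) i) z))
    (hF : ∀ (n a b : Fin 3), Dist n a b → D (n, a, b) → ∀ i : Fin 3,
      ∃ v, Start (s0 (n, a, b)) v ∧ ∀ z, InX x0 z → ∃ f : ℂ, f ≠ 0 ∧
        v (zw z) = f • (T (s0 (n, a, b)) (zw z)).mulVec (evv (F (n, a, b) i) z))
    (parse : ∀ (n a b : Fin 3), Dist n a b → D (n, a, b) → ∀ ms : List ℕ,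
      okD p q r false (n, a, b) ms →
      ∃ (bs : List B) (s' : S), BPath src tgt (s0 (n, a, b)) bs s' ∧
        (bs.map runs).flatten = ms) : ZFD D p q r x0 := by
  have hall : ∀ w ∈ frontier (Omg x0), PS src tgt M Start K C w := by
    intro w hw
    have hw' : w ∈ Frt x0 := omg_frontier hw
    rcases le_total 0 w.im with hi | hi
    · exact hpt w hw' hi
    · have h1 := conjS hc (frt_conj hw') (hpt (starRingEnd ℂ w) (frt_conj hw') (by
        rw [Complex.conj_im]
        linarith))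
      rw [Complex.conj_conj] at h1
      exact h1
  obtain ⟨h1, h2⟩ := ps_all (omg_open x0) hK hall
  exact zfd_of_regionsS L Start (omg_open x0) (omg_bounded hx) (fun z hz => zw_mem hx hz) hM hstart
    rk h1 C h2 s0 hs0 F hLI hF parse

/-- THE CLASS THEOREM for the standard blocks. The gauge `E` of the states `(s, false, none)` is the
`Y` chart. -/
theorem zf_classS {p q r : ℕ} (hp : 3 ≤ p) (hq : 3 ≤ q) (hr : 3 ≤ r)
    (hne : ¬ (p = 3 ∧ q = 3 ∧ r = 3)) {x0 : ℝ} (hx : -2 < x0)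
    {τ : Type} (Z : Sch τ) (E : SSt τ → ℂ → Mt) (M : SBlk Z p q r → ℂ → Mt)
    (L : Link p q r x0 SBlk.src SBlk.tgt M (fun s w => E s w * TM p q r s.1 w) (fun s => s.1)
      SBlk.runs)
    (al be e : ℝ) (he : e ≠ 0)
    (hE : ∀ s : GS, DG s → D4 p q r s → ∀ z : ℂ, InX x0 z → ∀ v : V3,
      (E (s, false, none) (zw z)).mulVec v = ![v 0, v 1 / omS p q r s (zw z),
        v 2 / (omS p q r s (zw z) * (1 / 2 - omS p q r s (zw z)))])
    (hM : ∀ b i j, ContinuousOn (fun w => M b w i j) (closure (Omg x0)) ∧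
      DifferentiableOn ℂ (fun w => M b w i j) (Omg x0))
    (K : SBlk Z p q r → TR (SBlk Z p q r)) (rk : SBlk Z p q r → ℕ)
    (hK : ∀ b, (K b).ok SBlk.src M (Omg x0) rk b)
    (hcm : ∀ b, ∀ w ∈ Frt x0, ∀ i j, M b (starRingEnd ℂ w) i j = starRingEnd ℂ (M b w i j))
    (hck : ∀ b, ∀ w ∈ Frt x0, (K b).conjOK w (starRingEnd ℂ w)) (C : ℝ)
    (hpt : ∀ w ∈ Frt x0, 0 ≤ w.im →
      PS SBlk.src SBlk.tgt M (StartY p q r al be e) K C w) : ZF p q r x0 := by
  have hst : ∀ (S : SSt τ) v, StartY p q r al be e S v → ∃ i, v = fun _ => UY al be e i :=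
    fun S v h => h.2.2.2.2
  refine ZF_of_ZFD hp hq hr hne (zfd_of_ptS (D := D4 p q r) hx L (StartY p q r al be e) hM ?_ K rk
    hK ⟨hcm, hck, ?_⟩ C hpt (fun t => (t, false, none)) (fun t => rfl)
    (fun s i => FSt p q r (![al, al + e, al] i) (![be, be, be + e] i) s.1 s.2.1 s.2.2)
    ?_ ?_ ?_)
  · intro S v hv
    obtain ⟨i, rfl⟩ := hst S v hv
    refine ⟨fun j => ⟨continuousOn_const, differentiableOn_const _⟩, fun w _ => ?_⟩
    simp [UY]
  · intro S v hv w _
    obtain ⟨i, rfl⟩ := hst S v hv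
    funext j
    show UY al be e i j = starRingEnd ℂ (UY al be e i j)
    fin_cases j <;> simp [UY]
  · intro n a b hd _ z hz hxz
    have hz0 : z ≠ 0 := by
      intro h
      rw [h, norm_zero] at hz
      exact zero_ne_one hz
    refine FSt_indep p q r hp hq hr al be e he hd z hz0 ?_
    have h3 : z⁻¹ = star z := by
      rw [Complex.inv_def, Complex.normSq_eq_norm_sq, hz]
      simp
    rw [h3, Complex.add_re]
    have h4 : (star z).re = z.re := rfl
    rw [h4]
    linarith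
  · intro n a b hd hD i
    refine ⟨fun _ => UY al be e i, ⟨hd, hD, rfl, rfl, i, rfl⟩, fun z hz => ?_⟩
    obtain ⟨f, hf, e1⟩ := fst_TM hp hq hr hx (s := (n, a, b)) hd hz (![al, al + e, al] i)
      (![be, be, be + e] i)
    have hl := lamS_pos hp hq hr hd
    obtain ⟨g1, g2, g3⟩ := LNI_Gh hp hq hr hx hz (s := (n, a, b)) hd
    have ht : 1 / 2 - omS p q r (n, a, b) (zw z) ≠ 0 := by
      obtain ⟨k1, k2⟩ := LNI_om hx hz (oriZ (n, a, b)) (lamS (kk p q r) n a b) hl
      have k2' : omS p q r (n, a, b) (zw z) = _ := k2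
      rw [k2']
      have hl' : (lamS (kk p q r) n a b : ℂ) ≠ 0 := by exact_mod_cast hl.ne'
      have hu : (if oriZ (n, a, b) = true then z else z⁻¹) ≠ 0 := by
        split_ifs
        · exact hz.1
        · exact inv_ne_zero hz.1
      generalize (if oriZ (n, a, b) = true then z else z⁻¹) = u at k1 hu
      have e3 : 1 / 2 - 1 / (2 * (1 + (lamS (kk p q r) n a b : ℂ) * u)) =
          (lamS (kk p q r) n a b : ℂ) * u / (2 * (1 + (lamS (kk p q r) n a b : ℂ) * u)) := by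
        field_simp
        ring
      rw [e3]
      exact div_ne_zero (mul_ne_zero hl' hu) (mul_ne_zero two_ne_zero k1)
    refine ⟨f⁻¹, inv_ne_zero hf, ?_⟩
    show UY al be e i = f⁻¹ • (E ((n, a, b), false, none) (zw z) *
      TM p q r (n, a, b) (zw z)).mulVec _
    rw [← Matrix.mulVec_mulVec, e1, hE (n, a, b) hd hD z hz]
    funext j
    fin_cases j
    · simp [UY, hf]
    · simp [UY]
      field_simp
    · have h6 : 1 - omS p q r (n, a, b) (zw z) * 2 ≠ 0 := by
        intro h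
        apply ht
        linear_combination h / 2
      simp [UY]
      field_simp
  · intro n a b hd _ ms hok
    exact Pool.Agent.Helper21.SUP.parse_sblk Z p q r n a b hd ms hok

/-- THE CLASS THEOREM in the global charts. What remains: treatments `K` of the blocks and the
pointwise certificates on the upper half of the critical line. -/
theorem zf_globalS {p q r : ℕ} (hp : 3 ≤ p) (hq : 3 ≤ q) (hr : 3 ≤ r)
    (hne : ¬ (p = 3 ∧ q = 3 ∧ r = 3)) {x0 : ℝ} (hx : -2 < x0) (Y : Modes)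
    (al be e : ℝ) (he : e ≠ 0)
    (K : SBlk (std Y) p q r → TR (SBlk (std Y) p q r)) (rk : SBlk (std Y) p q r → ℕ)
    (hK : ∀ b, (K b).ok SBlk.src (fun b => MG p q r b) (Omg x0) rk b)
    (hck : ∀ b, ∀ w ∈ Frt x0, (K b).conjOK w (starRingEnd ℂ w)) (C : ℝ)
    (hpt : ∀ w ∈ Frt x0, 0 ≤ w.im →
      PS SBlk.src SBlk.tgt (fun b : SBlk (std Y) p q r => MG p q r b)
        (StartY p q r al be e) K C w) : ZF p q r x0 :=
  zf_classS hp hq hr hne hx (std Y) (fun s w => (DG3 p q r s w)⁻¹) (fun b w => MG p q r b w)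
    (link_global hp hq hr hx Y) al be e he
    (fun _ hs _ _ hz v => DG3_inv_Y hp hq hr hx hs false hz v)
    (fun b i j => (MG_rc hp hq hr hx b).reg i j) K rk hK
    (fun b w _ i j => (MG_rc hp hq hr hx b).conj w i j) hck C hpt

end Pool.Agent.Helper84.ST
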