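import Pool.Agent.Helper84.ST.B
import Pool.Agent.Helper6.CX.CTH
import Pool.Agent.Helper6.CX.CLI

/-!
The certificates at a frontier point in the global and in the plain charts, star shaped regions.
-/

set_option autoImplicit false
noncomputable section
namespace Pool.Agent.Helper84.ST

open Pool.Agent.Helper6.MONO
open Pool.Agent.Helper21.SUP (GS Sch gM gM_append fD SBlk SSt DG DG_nx sD_cons sD_nil sD_append
  okD_cons okD_append ok1 Ty std Modes std_blk alL alL_self)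
open Pool.Agent.Helper6.MONO.SV (UY StartY D4)
open Pool.Agent.Helper21.MIR (TR Mt V)
open Pool.Agent.Helper39.C75 (Reg)
open Pool.Agent.Helper39.SLT (drop last drop_src drop_rank last_length drop_runs drop_seg BlkCert
  seg_append)

open Pool.Agent.Helper21.SUP renaming nx → nxs

variable {p q r : ℕ} {Y : Modes}

/-! ### pulling back -/

theorem cn_pull {R : Set V} (h : IsCn R) (E : Mt) (hE : ∀ v, E.mulVec v 0 = 1 * v 0) :
    IsCn {v | E.mulVec v ∈ R} := by
  refine ⟨fun v hv h0 => ?_, fun c v hc hv => ?_⟩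
  · apply h.ne0 _ hv
    rw [hE, h0, mul_zero]
  · show E.mulVec (c • v) ∈ R
    rw [Matrix.mulVec_smul]
    exact h.smul _ _ hc hv

theorem star_pull {R : Set V} {E : Mt} {r : V} (h : Star R (E.mulVec r))
    (hE : ∀ v, E.mulVec v 0 = 1 * v 0) : Star {v | E.mulVec v ∈ R} r := by
  refine ⟨h.1, fun v hv s hs => ?_⟩
  have h1 := h.2 _ hv s hs
  show E.mulVec ((v 0)⁻¹ • v + (s : ℂ) • ((r 0)⁻¹ • r)) ∈ R
  rw [hE, hE, one_mul, one_mul] at h1
  rw [Matrix.mulVec_add, Matrix.mulVec_smul, Matrix.mulVec_smul, Matrix.mulVec_smul]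
  exact h1

/-! ### the global charts -/

/-- THE CERTIFICATE at the frontier point `w`, in the global charts -/
structure GCertS (V : RV2) (e : ℝ) (p q r : ℕ) (Y : Modes) (live : SSt Ty → Prop) (C : ℝ) (w : ℂ)
    (R : SSt Ty → Set V3) : Prop where
  reg : ∀ σ, IsCn (R σ)
  blk : ∀ b : SBlk (std Y) p q r, ∀ v ∈ R b.src, (MG p q r b w).mulVec v ∈ R b.tgt
  dead : ∀ σ, ¬ live σ → ∀ v, v ∉ R σ
  ref : ∀ σ, DG σ.1 → live σ → Star (R σ) (rG V p q r σ w)
  start : ∀ s, DG s → D4 p q r s → ∀ i, UY V.al V.be e i ∈ R (s, false, none)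
  slitA : ∀ s f, DG s → ok1 p q r f s 3 → ∀ u ∈ R (s, f, some Ty.A),
    (GR p q r false s 3 w).mulVec u 0 / u 0 ∈ Complex.slitPlane
  slitP : ∀ s f k, DG s → ok1 p q r f s 3 → ∀ u ∈ R (s, f, some (Ty.P k)),
    (GR p q r false s 3 w).mulVec u 0 / u 0 ∈ Complex.slitPlane
  slitQ : ∀ s f k, DG s → ok1 p q r f s k → ∀ u ∈ R (s, f, some (Ty.Q k)),
    (GR p q r false s k w).mulVec u 0 / u 0 ∈ Complex.slitPlane
  slitB : ∀ s f, DG s → ok1 p q r f s 2 → ∀ u ∈ R (s, f, some Ty.B),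
    (UUm p q r s w).mulVec u 0 / u 0 ∈ Complex.slitPlane
  bound : ∀ σ v j, v ∈ R σ → ‖v j‖ ≤ C * ‖v 0‖

theorem GCertS.ps {V : RV2} {e : ℝ} {live : SSt Ty → Prop} {C : ℝ} {w : ℂ}
    {R : SSt Ty → Set V3} (h : GCertS V e p q r Y live C w R) :
    PS SBlk.src SBlk.tgt (fun b : SBlk (std Y) p q r => MG p q r b) (StartY p q r V.al V.be e)
      (KG V p q r live) C w := by
  refine ⟨R, ⟨h.reg, fun b v hv => h.blk b v hv, ?_⟩, fun b => ?_, fun s v j hv => h.bound s v j hv⟩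
  · rintro ⟨s, f, o⟩ v ⟨h1, h2, h3, h4, i, rfl⟩
    have h3' : f = false := h3
    have h4' : o = none := h4
    subst h3' h4'
    exact h.start s h1 h2 i
  · unfold KG
    by_cases hl : live b.src
    · rw [if_pos hl]
      by_cases ht : b.t = Ty.B
      · rw [if_pos ht]
        by_cases hm : b.ms.length ≤ 1
        · rw [if_pos hm]
          exact h.ref b.src b.hs hl
        · rw [if_neg hm]
          intro v hv
          obtain ⟨h1, h2⟩ := last_two b (by omega) ht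
          have h3 := MG_last_two b (by omega) ht w
          show (MG p q r b w).mulVec v 0 / (1 * (MG p q r (drop 2 b) w).mulVec v 0) ∈ _
          rw [h3, ← Matrix.mulVec_mulVec, one_mul]
          have h4 := h.blk (drop 2 b) v hv
          have h5 : (drop 2 b).tgt = (sD b.s (drop 2 b).runs, fD p q r b.f b.s (drop 2 b).runs,
              some Ty.B) := by
            show (sD b.s (drop 2 b).runs, fD p q r b.f b.s (drop 2 b).runs,
              some (drop 2 b).t) = _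
            rw [h2]
          rw [h5] at h4
          exact h.slitB _ _ (DG_sD _ _ b.hs) (ok_last b 2 h1) _ h4
      · rw [if_neg ht]
        by_cases hm : b.ms.length = 0
        · rw [if_pos hm]
          exact h.ref b.src b.hs hl
        · rw [if_neg hm]
          intro v hv
          obtain ⟨m, h1, h2, h3⟩ := last_one b hm ht
          have h4 := MG_last_one b hm ht h1 h2 w
          show (MG p q r b w).mulVec v 0 / (1 * (MG p q r (drop 1 b) w).mulVec v 0) ∈ _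
          rw [h4, ← Matrix.mulVec_mulVec, one_mul]
          have h5 := h.blk (drop 1 b) v hv
          have h6 : (drop 1 b).tgt = (sD b.s (drop 1 b).runs, fD p q r b.f b.s (drop 1 b).runs,
              some (drop 1 b).t) := rfl
          rw [h6] at h5
          have hD := DG_sD (drop 1 b).runs b.s b.hs
          have hok := ok_last b 1 h1
          rcases h3 with ⟨k, h7, h8⟩ | ⟨h7 | ⟨k, h7⟩, h8⟩
          · rw [h7] at h5
            rw [h8] at hok ⊢
            exact h.slitQ _ _ k hD hok _ h5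
          · rw [h7] at h5
            rw [h8] at hok ⊢
            exact h.slitA _ _ hD hok _ h5
          · rw [h7] at h5
            rw [h8] at hok ⊢
            exact h.slitP _ _ k hD hok _ h5
    · rw [if_neg hl]
      intro v hv
      exact absurd hv (h.dead _ hl v)


/-- convex certificates are star shaped ones -/
theorem gcertS_of {V : RV2} {e : ℝ} {live : SSt Ty → Prop} {C : ℝ} {w : ℂ}
    {R : SSt Ty → Set V3} (h : GCert V e p q r Y live C w R) : GCertS V e p q r Y live C w R :=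
  ⟨fun σ => cn_of_region (h.reg σ), h.blk, h.dead,
    fun σ hs hl => star_of_region (h.reg σ) (h.ref σ hs hl), h.start, h.slitA, h.slitP, h.slitQ,
    h.slitB, h.bound⟩

/-! ### the plain charts -/

/-- THE CERTIFICATE at the frontier point `w`, in the plain charts `TM` -/
structure PCertS (V : RV2) (e : ℝ) (p q r : ℕ) (Y : Modes) (live : SSt Ty → Prop) (C : ℝ) (w : ℂ)
    (R : SSt Ty → Set V3) : Prop where
  reg : ∀ σ, IsCn (R σ)
  blk : BlkCert (std Y) p q r (RMb p q r) w R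
  dead : ∀ σ, ¬ live σ → ∀ v, v ∉ R σ
  ref : ∀ σ, DG σ.1 → live σ → Star (R σ) ((DG3 p q r σ w).mulVec (rG V p q r σ w))
  start : ∀ s, DG s → D4 p q r s → ∀ i,
    (DYm (omS p q r s w)).mulVec (UY V.al V.be e i) ∈ R (s, false, none)
  slitA : ∀ s f, DG s → ok1 p q r f s 3 → ∀ u ∈ R (s, f, some Ty.A),
    DTH (kk p q r s.1 s.2.1) u / u 0 ∈ Complex.slitPlane
  slitP : ∀ s f k, DG s → ok1 p q r f s 3 → ∀ u ∈ R (s, f, some (Ty.P k)),
    DTH (kk p q r s.1 s.2.1) u / u 0 ∈ Complex.slitPlane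
  slitQ : ∀ s f k, DG s → ok1 p q r f s k → ∀ u ∈ R (s, f, some (Ty.Q k)),
    (RMb p q r s k w).mulVec u 0 / u 0 ∈ Complex.slitPlane
  slitB : ∀ s f, DG s → ok1 p q r f s 2 → ∀ u ∈ R (s, f, some Ty.B),
    DTH (kk p q r s.1 s.2.1) u / u 0 ∈ Complex.slitPlane
  bound : ∀ σ v j, v ∈ R σ → ‖v j‖ ≤ C * ‖v 0‖


/-- convex certificates are star shaped ones -/
theorem pcertS_of {V : RV2} {e : ℝ} {live : SSt Ty → Prop} {C : ℝ} {w : ℂ}
    {R : SSt Ty → Set V3} (h : PCert V e p q r Y live C w R) : PCertS V e p q r Y live C w R :=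
  ⟨fun σ => cn_of_region (h.reg σ), h.blk, h.dead,
    fun σ hs hl => star_of_region (h.reg σ) (h.ref σ hs hl), h.start, h.slitA, h.slitP, h.slitQ,
    h.slitB, h.bound⟩

/-- FROM THE PLAIN TO THE GLOBAL CHARTS. -/
theorem PCertS.gcert (hp : 3 ≤ p) (hq : 3 ≤ q) (hr : 3 ≤ r) {w : ℂ}
    (hd : ∀ s', DG s' → denS p q r s' w ≠ 0) (ho : ∀ s', DG s' → omS p q r s' w ≠ 0)
    {V : RV2} {e : ℝ} {live : SSt Ty → Prop} {C C' : ℝ} {R : SSt Ty → Set V3}
    (h : PCertS V e p q r Y live C w R)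
    (hC : ∀ (σ : SSt Ty) (v : V3), DG σ.1 ∨ True →
      (∀ j, ‖(DG3 p q r σ w).mulVec v j‖ ≤ C * ‖v 0‖) → ∀ j, ‖v j‖ ≤ C' * ‖v 0‖) :
    GCertS V e p q r Y live C' w (fun σ => {y | (DG3 p q r σ w).mulVec y ∈ R σ}) := by
  have h0 : ∀ (σ : SSt Ty) (v : V3), (DG3 p q r σ w).mulVec v 0 = 1 * v 0 := by
    intro σ v
    rw [DG3_first, one_mul]
  refine ⟨fun σ => cn_pull (h.reg σ) _ (h0 σ), ?_, fun σ hl v => h.dead σ hl _,
    fun σ hs hl => star_pull (h.ref σ hs hl) (h0 σ), ?_, ?_, ?_, ?_, ?_, ?_⟩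
  · intro b v hv
    obtain ⟨c, hc, e1⟩ := MG_link hp hq hr hd ho b
    have h1 := h.blk b.o b.f b.s b.m b.ms b.t b.hs b.hb _ hv
    have h2 : (gM (RMb p q r) b.s b.runs w).mulVec ((DG3 p q r b.src w).mulVec v) =
        c • (DG3 p q r b.tgt w).mulVec ((MG p q r b w).mulVec v) := by
      rw [Matrix.mulVec_mulVec, e1, Matrix.smul_mulVec, Matrix.mulVec_mulVec]
    have h3 : (gM (RMb p q r) b.s b.runs w).mulVec ((DG3 p q r b.src w).mulVec v) ∈ R b.tgt := h1
    rw [h2] at h3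
    have h4 := (h.reg b.tgt).smul c⁻¹ _ (inv_ne_zero hc) h3
    rw [smul_smul, inv_mul_cancel₀ hc, one_smul] at h4
    exact h4
  · intro s hs h4 i
    show (DG3 p q r (s, false, none) w).mulVec _ ∈ R (s, false, none)
    rw [DG3_Y hs false (by simp)]
    exact h.start s hs h4 i
  · intro s f hs hok u hu
    have hu' : (DYm (omS p q r s w)).mulVec u ∈ R (s, f, some Ty.A) := by
      rw [← DG3_Y hs f (o := some Ty.A) (by simp)]
      exact hu
    have h1 := h.slitA s f hs hok _ hu'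
    rw [DYm_mulVec0] at h1
    rw [GR_zero hp hq hr hs 3 (hd s hs) (hd _ (DG_nx s 3 hs)), RMb3_zero hp hq hr hs]
    exact h1
  · intro s f k hs hok u hu
    have hu' : (DYm (omS p q r s w)).mulVec u ∈ R (s, f, some (Ty.P k)) := by
      rw [← DG3_Y hs f (o := some (Ty.P k)) (by simp)]
      exact hu
    have h1 := h.slitP s f k hs hok _ hu'
    rw [DYm_mulVec0] at h1
    rw [GR_zero hp hq hr hs 3 (hd s hs) (hd _ (DG_nx s 3 hs)), RMb3_zero hp hq hr hs]
    exact h1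
  · intro s f k hs hok u hu
    have hu' : (DYm (omS p q r s w)).mulVec u ∈ R (s, f, some (Ty.Q k)) := by
      rw [← DG3_Y hs f (o := some (Ty.Q k)) (by simp)]
      exact hu
    have h1 := h.slitQ s f k hs hok _ hu'
    rw [DYm_mulVec0] at h1
    rw [GR_zero hp hq hr hs k (hd s hs) (hd _ (DG_nx s k hs))]
    exact h1
  · intro s f hs hok u hu
    have hu' : (DLm (omS p q r s w)).mulVec u ∈ R (s, f, some Ty.B) := by
      rw [← DG3_L hs f]
      exact hu
    have h1 := h.slitB s f hs hok _ hu'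
    rw [DLm_mulVec0] at h1
    rw [UUm_zero]
    exact h1
  · intro σ v j hv
    refine hC σ v (Or.inr trivial) (fun j => ?_) j
    have h1 := h.bound σ _ j hv
    rw [DG3_first] at h1
    exact h1

/-- FROM THE PLAIN TO THE GLOBAL CHARTS, with uniform bounds -/
theorem pcert_gcertS (hp : 3 ≤ p) (hq : 3 ≤ q) (hr : 3 ≤ r) {x0 : ℝ} (hx : -2 < x0) {d : ℝ}
    (hd : 0 < d) (C : ℝ) : ∃ C' : ℝ, ∀ w ∈ Frt x0, d ≤ ‖1 - w‖ → d ≤ ‖1 + w‖ →
      ∀ (V : RV2) (e : ℝ) (Y : Modes) (live : SSt Ty → Prop) (R : SSt Ty → Set V3),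
        PCertS V e p q r Y live C w R → ∃ R', GCertS V e p q r Y live C' w R' := by
  obtain ⟨K, hK0, hK⟩ := DG3_away hp hq hr hx hd (p := p) (q := q) (r := r)
  refine ⟨1 + |C| * (1 + 2 * K⁻¹ + K⁻¹ * K⁻¹), fun w hw h1 h2 V e Y live R h => ?_⟩
  have hw1 : w ≠ 1 := by
    rintro rfl
    simp at h1
    linarith
  have hw2 : w ≠ -1 := by
    rintro rfl
    simp at h2
    linarith
  refine ⟨_, h.gcert hp hq hr (fun s' hs' => frt_den hp hq hr hx hw hs')
    (fun s' hs' => (frt_om hp hq hr hx hw hw1 hw2 hs').1) ?_⟩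
  rintro ⟨s, f, o⟩ v - hv j
  have hKi : 0 < K⁻¹ := inv_pos.2 hK0
  have hC0 := abs_nonneg C
  have hCC := le_abs_self C
  have hv0 := norm_nonneg (v 0)
  have hv' : ∀ j, ‖(DG3 p q r (s, f, o) w).mulVec v j‖ ≤ |C| * ‖v 0‖ := fun j =>
    (hv j).trans (mul_le_mul_of_nonneg_right hCC hv0)
  have t1 : |C| * ‖v 0‖ ≤ (1 + |C| * (1 + 2 * K⁻¹ + K⁻¹ * K⁻¹)) * ‖v 0‖ := by
    refine mul_le_mul_of_nonneg_right ?_ hv0
    nlinarith [mul_nonneg hC0 hKi.le, mul_nonneg hC0 (mul_pos hKi hKi).le]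
  have t2 : ‖v 0‖ ≤ (1 + |C| * (1 + 2 * K⁻¹ + K⁻¹ * K⁻¹)) * ‖v 0‖ := by
    have : 0 ≤ |C| * (1 + 2 * K⁻¹ + K⁻¹ * K⁻¹) := by positivity
    nlinarith
  have t3 : K⁻¹ * (2 * (|C| * ‖v 0‖)) ≤ (1 + |C| * (1 + 2 * K⁻¹ + K⁻¹ * K⁻¹)) * ‖v 0‖ := by
    have e : K⁻¹ * (2 * (|C| * ‖v 0‖)) = (|C| * (2 * K⁻¹)) * ‖v 0‖ := by ring
    rw [e]
    refine mul_le_mul_of_nonneg_right ?_ hv0
    nlinarith [mul_nonneg hC0 hKi.le, mul_nonneg hC0 (mul_pos hKi hKi).le]
  have t4 : K⁻¹ * K⁻¹ * (|C| * ‖v 0‖) ≤ (1 + |C| * (1 + 2 * K⁻¹ + K⁻¹ * K⁻¹)) * ‖v 0‖ := by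
    have e : K⁻¹ * K⁻¹ * (|C| * ‖v 0‖) = (|C| * (K⁻¹ * K⁻¹)) * ‖v 0‖ := by ring
    rw [e]
    refine mul_le_mul_of_nonneg_right ?_ hv0
    nlinarith [mul_nonneg hC0 hKi.le, mul_nonneg hC0 (mul_pos hKi hKi).le]
  have t5 : K⁻¹ * (|C| * ‖v 0‖) ≤ (1 + |C| * (1 + 2 * K⁻¹ + K⁻¹ * K⁻¹)) * ‖v 0‖ := by
    have : 0 ≤ K⁻¹ * (|C| * ‖v 0‖) := by positivity
    linarith
  by_cases hs : DG s
  swap
  · have e1 : DG3 p q r (s, f, o) w = 1 := by
      rw [DG3]
      exact if_neg hs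
    have h3 := hv' j
    rw [e1, Matrix.one_mulVec] at h3
    exact h3.trans t1
  obtain ⟨a1, a2, a3, a4⟩ := hK w hw h1 h2 s hs
  by_cases hoB : o = some Ty.B
  · subst hoB
    rw [DG3_L hs] at hv'
    have b1 := hv' 1
    have b2 := hv' 2
    have c1 : (DLm (omS p q r s w)).mulVec v 1 = teS p q r s w * v 1 + omS p q r s w * v 2 := by
      simp [DLm, teS, Matrix.mulVec, dotProduct, Fin.sum_univ_three]
    have c2 : (DLm (omS p q r s w)).mulVec v 2 = teS p q r s w * v 1 := by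
      simp [DLm, teS, Matrix.mulVec, dotProduct, Fin.sum_univ_three]
    rw [c1] at b1
    rw [c2] at b2
    have b3 : ‖omS p q r s w * v 2‖ ≤ 2 * (|C| * ‖v 0‖) := by
      have e : omS p q r s w * v 2 =
          (teS p q r s w * v 1 + omS p q r s w * v 2) - teS p q r s w * v 1 := by ring
      rw [e]
      refine (norm_sub_le _ _).trans ?_
      linarith
    fin_cases j
    · exact t2
    · exact (norm_le_of_mul hK0 a2 b2).trans t5
    · exact (norm_le_of_mul hK0 a1 b3).trans t3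
  · rw [DG3_Y hs f hoB] at hv'
    have b1 := hv' 1
    have b2 := hv' 2
    have c1 : (DYm (omS p q r s w)).mulVec v 1 = omS p q r s w * v 1 := by
      simp [DYm, Matrix.mulVec, dotProduct, Fin.sum_univ_three]
    have c2 : (DYm (omS p q r s w)).mulVec v 2 = omS p q r s w * (teS p q r s w * v 2) := by
      simp [DYm, teS, Matrix.mulVec, dotProduct, Fin.sum_univ_three]
      ring
    rw [c1] at b1
    rw [c2] at b2
    fin_cases j
    · exact t2
    · exact (norm_le_of_mul hK0 a1 b1).trans t5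
    · refine (norm_le_of_mul hK0 a2 (norm_le_of_mul hK0 a1 b2)).trans (le_trans (le_of_eq ?_) t4)
      ring

end Pool.Agent.Helper84.ST
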