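import Pool.Agent.Helper84.ST.C

/-!
Relabelling of the certificates, the class theorem on a quarter of the line, star shaped regions.
-/

set_option autoImplicit false
noncomputable section
namespace Pool.Agent.Helper84.ST

open Pool.Agent.Helper6.MONO
open Pool.Agent.Helper21.SUP (GS Sch gM gM_append fD SBlk SSt DG DG_nx sD_cons sD_nil sD_append
  okD_cons okD_append ok1 Ty std Modes std_blk alL alL_self rl MmOK nx_rl sD_rl fD_rl DG_rl srl
  mmOK_02 mmOK_rot)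
open Pool.Agent.Helper6.MONO.SV (UY StartY D4)
open Pool.Agent.Helper21.MIR (TR Mt V)
open Pool.Agent.Helper21.MIRI
open Pool.Agent.Helper39.C75 (Reg)
open Pool.Agent.Helper39.SLT (BlkCert)

open Pool.Agent.Helper21.SUP renaming nx → nxs

/-- THE CERTIFICATES OF TWO LABELLINGS, global charts -/
theorem GCertS.rl {σ : Equiv.Perm (Fin 3)} {p q r p' q' r' : ℕ} {w w' : ℂ} {V : RV2} {e : ℝ} {Y Y' : Modes} {live live' : SSt Ty → Prop} {C : ℝ}
    {R : SSt Ty → Set V3} (h : RlE σ p q r p' q' r' w w')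
    (hZ : SRel (std Y) (std Y') σ) (hl : ∀ x, live' (srl σ x) ↔ live x)
    (hR : GCertS V e p' q' r' Y' live' C w' R) :
    GCertS V e p q r Y live C w (fun x => R (srl σ x)) := by
  refine ⟨fun x => hR.reg _, ?_, fun x hx v => hR.dead _ (fun h' => hx ((hl x).1 h')) v, ?_, ?_,
    ?_, ?_, ?_, ?_, fun x v j hv => hR.bound _ v j hv⟩
  · intro b v hv
    have h1 := hR.blk (rlB hZ h.mm b) v hv
    rw [h.mg hZ, tgt_rlB] at h1
    exact h1
  · intro x hx hlx
    have h1 := hR.ref (srl σ x) (DG_rl σ x.1 hx) ((hl x).2 hlx)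
    rw [rG_rl h V x hx] at h1
    exact h1
  · intro s hs h4 i
    exact hR.start (Pool.Agent.Helper21.SUP.rl σ s) (DG_rl σ s hs) (D4_rl h.mm h4) i
  · intro s f hs hok u hu
    have h1 := hR.slitA (Pool.Agent.Helper21.SUP.rl σ s) f (DG_rl σ s hs) (ok1_rl h.mm hok) u hu
    rw [h.gr false hs] at h1
    exact h1
  · intro s f k hs hok u hu
    have h1 := hR.slitP (Pool.Agent.Helper21.SUP.rl σ s) f k (DG_rl σ s hs) (ok1_rl h.mm hok) u hu
    rw [h.gr false hs] at h1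
    exact h1
  · intro s f k hs hok u hu
    have h1 := hR.slitQ (Pool.Agent.Helper21.SUP.rl σ s) f k (DG_rl σ s hs) (ok1_rl h.mm hok) u hu
    rw [h.gr false hs] at h1
    exact h1
  · intro s f hs hok u hu
    have h1 := hR.slitB (Pool.Agent.Helper21.SUP.rl σ s) f (DG_rl σ s hs) (ok1_rl h.mm hok) u hu
    rw [h.uu hs] at h1
    exact h1


/-- the certificate of the mirrored class gives the one at `-w` -/
theorem GCertS.mirror {p q r : ℕ} {V : RV2} {e : ℝ} {Y Y' : Modes} {live live' : SSt Ty → Prop}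
    {C : ℝ} {R : SSt Ty → Set V3} {w : ℂ} (hZ : SRel (std Y) (std Y') (Equiv.swap 0 2))
    (hl : ∀ x, live' (srl (Equiv.swap 0 2) x) ↔ live x)
    (hR : GCertS V e q p r Y' live' C w R) :
    GCertS V e p q r Y live C (-w) (fun x => R (srl (Equiv.swap 0 2) x)) :=
  hR.rl (rle_02 p q r w) hZ hl

/-- THE CLASS THEOREM, quarter of the line, for the class and for the mirrored class. -/
theorem zf_of_quarterS {p q r : ℕ} (hp : 3 ≤ p) (hq : 3 ≤ q) (hr : 3 ≤ r)
    (hne : ¬ (p = 3 ∧ q = 3 ∧ r = 3)) {x0 : ℝ} (hx : -2 < x0) {Y Y' : Modes} {V : RV2} {e : ℝ}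
    (he : e ≠ 0) {live live' : SSt Ty → Prop} (hc : Clo V p q r Y live x0)
    (hZ : SRel (std Y) (std Y') (Equiv.swap 0 2))
    (hl : ∀ x, live' (srl (Equiv.swap 0 2) x) ↔ live x) (C : ℝ)
    (h1 : ∀ w ∈ Frt x0, 0 ≤ w.im → 0 ≤ w.re → ∃ R, GCertS V e p q r Y live C w R)
    (h2 : ∀ w ∈ Frt x0, 0 ≤ w.im → 0 ≤ w.re → ∃ R, GCertS V e q p r Y' live' C w R) :
    ZF p q r x0 := by
  refine zf_globalS hp hq hr hne hx Y V.al V.be e he (KG V p q r live) (fun b => b.ms.length)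
    (fun b => KG_ok hp hq hr hx hc b) (fun b w _ => KG_conj b w) C ?_
  have hcj : ConjOK (S := SSt Ty) (fun b : SBlk (std Y) p q r => MG p q r b)
      (StartY p q r V.al V.be e) (KG V p q r live) x0 := by
    refine ⟨fun b w _ i j => (MG_rc hp hq hr hx b).conj w i j, fun b w _ => KG_conj b w, ?_⟩
    rintro s v ⟨-, -, -, -, i, rfl⟩ w -
    funext j
    show UY V.al V.be e i j = starRingEnd ℂ (UY V.al V.be e i j)
    unfold UY
    fin_cases i <;> fin_cases j <;> simp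
  exact ps_upper hcj (fun w hw hi hr => by
    obtain ⟨R, hR⟩ := h1 w hw hi hr
    exact hR.ps) fun w hw hi hr => by
    obtain ⟨R, hR⟩ := h2 w hw hi hr
    exact (hR.mirror hZ hl).ps

theorem GCertS.mono {p q r : ℕ} {V : RV2} {e : ℝ} {Y : Modes} {live : SSt Ty → Prop} {C C' : ℝ}
    {w : ℂ} {R : SSt Ty → Set V3} (h : GCertS V e p q r Y live C w R) (hC : C ≤ C') :
    GCertS V e p q r Y live C' w R :=
  ⟨h.reg, h.blk, h.dead, h.ref, h.start, h.slitA, h.slitP, h.slitQ, h.slitB, fun σ v j hv =>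
    (h.bound σ v j hv).trans (mul_le_mul_of_nonneg_right hC (norm_nonneg _))⟩

/-- plain certificates away from `w = 1`, global ones near `w = 1` -/
theorem gcert_of_partsS {p q r : ℕ} (hp : 3 ≤ p) (hq : 3 ≤ q) (hr : 3 ≤ r) {x0 : ℝ} (hx : -2 < x0)
    {Y : Modes} {V : RV2} {e : ℝ} {live : SSt Ty → Prop} {d : ℝ} (hd : 0 < d) (C₁ C₂ : ℝ)
    (h : ∀ w ∈ Frt x0, 0 ≤ w.im → 0 ≤ w.re →
      (d ≤ ‖1 - w‖ ∧ ∃ R, PCertS V e p q r Y live C₁ w R) ∨ ∃ R, GCertS V e p q r Y live C₂ w R) :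
    ∃ C, ∀ C', C ≤ C' → ∀ w ∈ Frt x0, 0 ≤ w.im → 0 ≤ w.re →
      ∃ R, GCertS V e p q r Y live C' w R := by
  have hd1 : 0 < min d 1 := lt_min hd one_pos
  obtain ⟨C₃, hC₃⟩ := pcert_gcertS hp hq hr hx hd1 C₁
  refine ⟨max C₂ C₃, fun C' hC' w hw hi hre => ?_⟩
  rcases h w hw hi hre with ⟨h1, R, hR⟩ | ⟨R, hR⟩
  · have h2 : 1 ≤ ‖1 + w‖ := by
      have h3 : (1 + w).re ≤ ‖1 + w‖ := Complex.re_le_norm _
      have h4 : (1 + w).re = 1 + w.re := by simp
      linarith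
    obtain ⟨R', hR'⟩ := hC₃ w hw ((min_le_left _ _).trans h1) ((min_le_right _ _).trans h2)
      V e Y live R hR
    exact ⟨R', hR'.mono ((le_max_right _ _).trans hC')⟩
  · exact ⟨R, hR.mono ((le_max_left _ _).trans hC')⟩

end Pool.Agent.Helper84.ST
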