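import Pool.Agent.Helper84.ST.D
import Pool.Agent.Helper12.CX.BRG

/-!
The certificate from star shaped regions for the types of the last run.
-/

set_option autoImplicit false
noncomputable section
namespace Pool.Agent.Helper84.ST

open Pool.Agent.Helper6.MONO
open Pool.Agent.Helper21.SUP (GS Sch gM gM_append fD SBlk SSt DG DG_nx sD_cons sD_nil sD_append
  okD_cons okD_append ok1 Ty std Modes std_blk alL alL_self)
open Pool.Agent.Helper6.MONO.SV (UY StartY D4)
open Pool.Agent.Helper39.SLT (BlkCert T4 ML mem_any ML_ge)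

open Pool.Agent.Helper21.SUP renaming nx → nxs

variable {p q r : ℕ}

theorem cn_empty : IsCn (∅ : Set V3) := ⟨fun _ h => h.elim, fun _ _ _ h => h.elim⟩

theorem cn_and {P : Prop} {R : Set V3} (h : IsCn R) : IsCn {v | P ∧ v ∈ R} :=
  ⟨fun v hv => h.ne0 v hv.2, fun c v hc hv => ⟨hv.1, h.smul c v hc hv.2⟩⟩

theorem star_and {P : Prop} (hP : P) {R : Set V3} {r : V3} (h : Star R r) :
    Star {v | P ∧ v ∈ R} r :=
  ⟨⟨hP, h.1⟩, fun v hv s hs => ⟨hP, h.2 v hv.2 s hs⟩⟩

theorem star_congr {R R' : Set V3} {r : V3} (h : Star R r) (e : R = R') : Star R' r := e ▸ h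

/-- the regions of the automaton states are admissible -/
theorem cn_reg {R : GS → T4 → Set V3} (h : ∀ s T, IsCn (R s T)) (σ : SSt Ty) :
    IsCn (Pool.Agent.Helper39.SLT.reg p q r R σ) := by
  obtain ⟨s, f, o⟩ := σ
  match o with
  | some Ty.B => exact cn_and (h s T4.two)
  | some Ty.A => exact cn_and (h s T4.three)
  | some (Ty.P _) => exact cn_empty
  | some (Ty.Q _) => exact cn_empty
  | none =>
    have h2 := h s T4.two
    have h3 := h s T4.three
    exact ⟨fun v hv => h2.ne0 v hv.2.2.1,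
      fun c v hc hv => ⟨hv.1, hv.2.1, h2.smul c v hc hv.2.2.1, h3.smul c v hc hv.2.2.2⟩⟩
  | some Ty.o =>
    have h2 := h s T4.full
    have h3 := h s T4.oth
    refine ⟨fun v hv => ?_, fun c v hc hv => ?_⟩
    · rcases hv with ⟨-, -, h4⟩ | ⟨-, -, h4⟩
      · exact h2.ne0 v h4
      · exact h3.ne0 v h4
    · rcases hv with ⟨h4, h5, h6⟩ | ⟨h4, h5, h6⟩
      · exact Or.inl ⟨h4, h5, h2.smul c v hc h6⟩
      · exact Or.inr ⟨h4, h5, h3.smul c v hc h6⟩

/-- THE CERTIFICATE for the types of the last run, plain charts, star shaped regions -/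
structure TCertS (V : RV2) (e : ℝ) (p q r : ℕ) (C : ℝ) (w : ℂ) (R : GS → T4 → Set V3) : Prop where
  reg : ∀ s, DG s → ∀ T : T4, T.ok (ML p q r s) → IsCn (R s T)
  blk : BlkCert (std Y0) p q r (RMb p q r) w (Pool.Agent.Helper39.SLT.reg p q r R)
  refY : ∀ s, DG s → ∀ T : T4, T.ok (ML p q r s) → T ≠ T4.two →
    Star (R s T) ((DYm (omS p q r s w)).mulVec ![1, (V.al : ℂ), (V.be : ℂ)])
  refL : ∀ s, DG s → ML p q r s = 3 → Star (R s T4.two) ((DLm (omS p q r s w)).mulVec
    ![1, (V.c : ℂ), (V.d (kk p q r s.1 s.2.2) : ℂ)])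
  ref4 : ∀ s, DG s → 4 ≤ ML p q r s →
    Star (R s T4.two) ((DYm (omS p q r s w)).mulVec (UY V.al V.be e 0))
  start : ∀ s, DG s → 4 ≤ ML p q r s → ∀ i,
    (DYm (omS p q r s w)).mulVec (UY V.al V.be e i) ∈ R s T4.two ∧
      (DYm (omS p q r s w)).mulVec (UY V.al V.be e i) ∈ R s T4.three
  slit3 : ∀ s, DG s → ∀ u ∈ R s T4.three, DTH (kk p q r s.1 s.2.1) u / u 0 ∈ Complex.slitPlane
  slit2 : ∀ s, DG s → ∀ u ∈ R s T4.two, DTH (kk p q r s.1 s.2.1) u / u 0 ∈ Complex.slitPlane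
  bound : ∀ s, DG s → ∀ T : T4, T.ok (ML p q r s) → ∀ u ∈ R s T, ∀ j, ‖u j‖ ≤ C * ‖u 0‖

/-- convex certificates are star shaped ones -/
theorem tcertS_of {V : RV2} {e C : ℝ} {w : ℂ} {R : GS → T4 → Set V3}
    (h : TCert V e p q r C w R) : TCertS V e p q r C w R :=
  ⟨fun s hs T hT => cn_of_region (h.reg s hs T hT), h.blk,
    fun s hs T hT h2 => star_of_region (h.reg s hs T hT) (h.refY s hs T hT h2),
    fun s hs h3 => star_of_region (h.reg s hs T4.two trivial) (h.refL s hs h3),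
    fun s hs h4 => star_of_region (h.reg s hs T4.two trivial) (h.start s hs h4 0).1,
    h.start, h.slit3, h.slit2, h.bound⟩

theorem TCertS.pcertS (hp : 3 ≤ p) (hq : 3 ≤ q) (hr : 3 ≤ r) {V : RV2} {e C : ℝ} {w : ℂ}
    {R : GS → T4 → Set V3} (h : TCertS V e p q r C w R) :
    PCertS V e p q r Y0 (liveT p q r) C w
      (Pool.Agent.Helper39.SLT.reg p q r (cutR p q r R)) := by
  refine ⟨fun σ => cn_reg ?_ σ, cutR_blk h.blk, ?_, ?_, ?_, ?_, ?_, ?_, ?_, ?_⟩
  · intro s T
    by_cases hs : DG s ∧ T.ok (ML p q r s)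
    · have e : cutR p q r R s T = R s T := by
        ext v
        exact ⟨fun hv => hv.2, fun hv => ⟨hs, hv⟩⟩
      rw [e]
      exact h.reg s hs.1 T hs.2
    · have e : cutR p q r R s T = ∅ := by
        ext v
        exact ⟨fun hv => hs hv.1, fun hv => hv.elim⟩
      rw [e]
      exact cn_empty
  · -- dead
    rintro ⟨s, f, o⟩ hl v hv
    apply hl
    match o, hv with
    | some Ty.B, hv => exact Or.inl ⟨rfl, hv.1⟩
    | some Ty.A, hv => exact Or.inr (Or.inl ⟨rfl, hv.1⟩)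
    | some (Ty.P _), hv => exact hv.elim
    | some (Ty.Q _), hv => exact hv.elim
    | none, hv => exact Or.inr (Or.inr (Or.inr ⟨rfl, hv.1, hv.2.1⟩))
    | some Ty.o, hv =>
      rcases hv with ⟨h1, h2, -⟩ | ⟨h1, h2, -⟩
      · exact Or.inr (Or.inr (Or.inl ⟨rfl, Or.inl ⟨h1, h2⟩⟩))
      · exact Or.inr (Or.inr (Or.inl ⟨rfl, Or.inr ⟨h1, h2⟩⟩))
  · -- ref
    rintro ⟨s, f, o⟩ hs hl
    have hs' : DG s := hs
    rw [cutR_reg hs']
    rcases hl with ⟨h1, h2⟩ | ⟨h1, h2⟩ | ⟨h1, h2⟩ | ⟨h1, h2, h3⟩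
    · have h1' : o = some Ty.B := h1
      subst h1'
      by_cases h3 : ML p q r s = 3
      · rw [DG3_L hs', rG_L V h3]
        exact star_and h2 (h.refL s hs' h3)
      · have h4 : 4 ≤ ML p q r s := by
          have := ML_ge hp hq hr hs'
          omega
        rw [DG3_L hs', rG_LY V h3, DLm_yL, ← UY_zero V.al V.be e]
        exact star_and h2 (h.ref4 s hs' h4)
    · have h1' : o = some Ty.A := h1
      subst h1'
      rw [DG3_Y hs' f (by simp), rG_Y V (by simp)]
      exact star_and h2 (h.refY s hs' T4.three trivial (by decide))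
    · have h1' : o = some Ty.o := h1
      subst h1'
      rw [DG3_Y hs' f (by simp), rG_Y V (by simp)]
      rcases h2 with ⟨h2, h3⟩ | ⟨h2, h3⟩
      · have h2' : f = true := h2
        refine star_congr (star_and (P := f = true ∧ 4 ≤ ML p q r s) ⟨h2, h3⟩
          (h.refY s hs' T4.full h3 (by decide))) ?_
        ext v
        constructor
        · rintro ⟨⟨a, b⟩, c⟩
          exact Or.inl ⟨a, b, c⟩
        · rintro (⟨a, b, c⟩ | ⟨a, -, -⟩)
          · exact ⟨⟨a, b⟩, c⟩
          · rw [h2'] at a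
            cases a
      · have h2' : f = false := h2
        refine star_congr (star_and (P := f = false ∧ 5 ≤ ML p q r s) ⟨h2, h3⟩
          (h.refY s hs' T4.oth h3 (by decide))) ?_
        ext v
        constructor
        · rintro ⟨⟨a, b⟩, c⟩
          exact Or.inr ⟨a, b, c⟩
        · rintro (⟨a, -, -⟩ | ⟨a, b, c⟩)
          · rw [h2'] at a
            cases a
          · exact ⟨⟨a, b⟩, c⟩
    · have h1' : o = none := h1
      subst h1'
      rw [DG3_Y hs' f (by simp), rG_Y V (by simp)]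
      have h4 := h.ref4 s hs' h3
      have h5 := h.refY s hs' T4.three trivial (by decide)
      rw [UY_zero] at h4
      refine star_congr (star_and (P := f = false ∧ 4 ≤ ML p q r s) ⟨h2, h3⟩ (star_inter h4 h5)) ?_
      ext v
      constructor
      · rintro ⟨⟨a, b⟩, c, d⟩
        exact ⟨a, b, c, d⟩
      · rintro ⟨a, b, c, d⟩
        exact ⟨⟨a, b⟩, c, d⟩
  · -- start
    intro s hs h4 i
    rw [cutR_reg hs]
    have h3 := D4_ML hp hq hr hs h4
    obtain ⟨h5, h6⟩ := h.start s hs h3 i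
    exact ⟨rfl, h3, h5, h6⟩
  · intro s f hs _ u hu
    rw [cutR_reg hs] at hu
    exact h.slit3 s hs u hu.2
  · intro s f k hs _ u hu
    exact hu.elim
  · intro s f k hs _ u hu
    exact hu.elim
  · intro s f hs _ u hu
    rw [cutR_reg hs] at hu
    exact h.slit2 s hs u hu.2
  · rintro ⟨s, f, o⟩ v j hv
    obtain ⟨T, -, hT⟩ := mem_any hv
    exact h.bound s hT.1.1 T hT.1.2 v hT.2 j

end Pool.Agent.Helper84.ST
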